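import Pool.Agent.Q240.KS.Stm2

set_option autoImplicit false

/-!
# Project KS (helper240), job OPT2: optimisation of exponents for (2/3, 2/3)
-/

namespace Pool.Agent.Q238.KS

open Pool.Agent.Q240.KS

theorem caseA (ε₀ al lam ki ka : ℝ) (h0 : 0 < ε₀) (hki : ki ≤ 1.0065 * ka * al)
    (hka : ε₀ ≤ ka) (hlam : lam ≤ 2 / 3 + ε₀ / 1000) (m : ℕ) (hm1 : 1 ≤ m) (hm2 : m ≤ 2000)
    (ha1 : 0.67 ≤ m * al) (ha2 : m * al ≤ 0.97) :
    ∃ m : ℕ, 1 ≤ m ∧ m ≤ 2000 ∧
    max (2 * m * ki) (min (lam - m * al + 2 * m * ki) (lam - 2 * m * al + 6 * m * ki)) + ε₀ / 1000 ≤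
      2 * ka := by
  refine ⟨m, hm1, hm2, ?_⟩
  have hm : (0 : ℝ) ≤ m := Nat.cast_nonneg m
  have hk0 : 0 < ka := by linarith
  have h1 : (m : ℝ) * ki ≤ 1.0065 * ka * (m * al) := by
    have := mul_le_mul_of_nonneg_left hki hm
    linarith
  have h2 : 1.0065 * ka * (m * al) ≤ 1.0065 * ka * 0.97 :=
    mul_le_mul_of_nonneg_left ha2 (by positivity)
  have h3 : 2 * (m : ℝ) * ki ≤ 1.953 * ka := by linarith
  have h4 : max (2 * m * ki) (min (lam - m * al + 2 * m * ki) (lam - 2 * m * al + 6 * m * ki)) ≤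
      2 * ka - ε₀ / 1000 := by
    refine max_le (by linarith) ((min_le_left _ _).trans ?_)
    linarith
  linarith

theorem t_OPT2 : S_OPT2 := by
  intro ε₀ h0 h1 al lam ki ka hal hki0 hki hka hlam0 hlam hyp
  have hmax : max ka (2 * ka + 2 / 3 - 2 / 3) = 2 * ka := by
    rw [show 2 * ka + 2 / 3 - 2 / 3 = 2 * ka by ring]
    exact max_eq_right (by linarith)
  rw [hmax]
  have hk0 : 0 < ka := by linarith
  have hal0 : 0 < al := by linarith
  right
  by_cases c1 : al ≤ 0.30
  · -- the least m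
    have hpos : 0 < 0.67 / al := by positivity
    refine caseA ε₀ al lam ki ka h0 hki hka hlam ⌈0.67 / al⌉₊ (Nat.one_le_ceil_iff.2 hpos) ?_ ?_ ?_
    · rw [Nat.ceil_le]
      rw [div_le_iff₀ hal0]
      push_cast
      linarith
    · have := Nat.le_ceil (0.67 / al)
      rwa [div_le_iff₀ hal0] at this
    · have := Nat.ceil_lt_add_one hpos.le
      have h2 : (⌈0.67 / al⌉₊ : ℝ) * al < (0.67 / al + 1) * al := mul_lt_mul_of_pos_right this hal0
      have h3 : (0.67 / al + 1) * al = 0.67 + al := by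
        field_simp
      linarith
  have c1' := not_le.1 c1
  have hyp2 : al - lam / 2 - ε₀ / 1000 ≤ ki ∧ al / 2 - lam / 6 - ε₀ / 1000 ≤ ki ∧
      al ≤ lam + ε₀ / 1000 := by
    rcases hyp with h | h
    · linarith
    · exact h
  obtain ⟨g1, g2, g3⟩ := hyp2
  by_cases c2 : al ≤ 0.3233
  · exact caseA ε₀ al lam ki ka h0 hki hka hlam 3 (by norm_num) (by norm_num)
      (by push_cast; linarith) (by push_cast; linarith)
  have c2' := not_le.1 c2
  by_cases c3 : al < 0.335
  · refine ⟨2, by norm_num, by norm_num, ?_⟩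
    push_cast
    have e1 : ka * al ≤ ka * 0.335 := mul_le_mul_of_nonneg_left c3.le hk0.le
    have e2 : ki ≤ 0.3372 * ka := by linarith
    have e3 : 0.149 ≤ ka := by linarith
    have h4 : max (2 * 2 * ki) (min (lam - 2 * al + 2 * 2 * ki) (lam - 2 * 2 * al + 6 * 2 * ki)) ≤
        2 * ka - ε₀ / 1000 := by
      refine max_le (by linarith) ((min_le_left _ _).trans ?_)
      linarith
    linarith
  have c3' := not_lt.1 c3
  by_cases c4 : al ≤ 0.485
  · exact caseA ε₀ al lam ki ka h0 hki hka hlam 2 (by norm_num) (by norm_num)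
      (by push_cast; linarith) (by push_cast; linarith)
  have c4' := not_le.1 c4
  by_cases c5 : al < 0.67
  · refine ⟨1, le_refl _, by norm_num, ?_⟩
    push_cast
    have e1 : ka * al ≤ ka * 0.67 := mul_le_mul_of_nonneg_left c5.le hk0.le
    have e2 : 2 * ki ≤ 1.3488 * ka := by linarith
    have e3 : al - 0.33335 ≤ 1.0065 * ka * al := by linarith
    have e4 : (2 - 2.013 * al) * (al - 0.33335) ≤ (2 - 2.013 * al) * (1.0065 * ka * al) :=
      mul_le_mul_of_nonneg_left e3 (by linarith)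
    have e5 : 1.0065 * al * (0.66672 - al) ≤ (2 - 2.013 * al) * (al - 0.33335) := by
      nlinarith [mul_nonneg (sub_nonneg.2 c4'.le) (sub_nonneg.2 c5.le)]
    have e6 : 1.0065 * al * (0.66672 - al) ≤ 1.0065 * al * ((2 - 2.013 * al) * ka) := by
      calc 1.0065 * al * (0.66672 - al) ≤ (2 - 2.013 * al) * (1.0065 * ka * al) := e5.trans e4
        _ = 1.0065 * al * ((2 - 2.013 * al) * ka) := by ring
    have e7 : 0.66672 - al ≤ (2 - 2.013 * al) * ka :=
      le_of_mul_le_mul_left e6 (by positivity)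
    have h4 : max (2 * 1 * ki) (min (lam - 1 * al + 2 * 1 * ki) (lam - 2 * 1 * al + 6 * 1 * ki)) ≤
        2 * ka - ε₀ / 1000 := by
      refine max_le (by linarith) ((min_le_left _ _).trans ?_)
      nlinarith
    linarith
  have c5' := not_lt.1 c5
  by_cases c6 : al ≤ 0.97
  · exact caseA ε₀ al lam ki ka h0 hki hka hlam 1 (le_refl _) (by norm_num)
      (by push_cast; linarith) (by push_cast; linarith)
  · exfalso
    have := not_le.1 c6
    linarith

end Pool.Agent.Q238.KS
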